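import Pool.Agent.KS6_47.CEg.Star

/-! Vanishing for bipartite graphs. -/

set_option autoImplicit false
open Finset

namespace Pool.Agent.KS6_47.CEg

open Pool.Agent.KS6_47.CEgPoly (bd cone eps bd_add bd_sub bd_bd bd_cone bd_ne eps_sq)
open Pool.Agent.KS6_47.CEg.Tor

variable {n : ℕ} {G : SimpleGraph (Fin n)} {K : Type*} [Field K]

/-- `A` and its complement are the two parts of the bipartite graph `G`. -/
def IsPart (G : SimpleGraph (Fin n)) (A : Finset (Fin n)) : Prop :=
  ∀ a b, G.Adj a b → (a ∈ A ↔ b ∉ A)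

theorem IsPart.compl {A : Finset (Fin n)} (h : IsPart G A) : IsPart G Aᶜ := by
  intro a b hab
  have := h a b hab
  rw [mem_compl, mem_compl]
  tauto

theorem sum_ee_on (A : Finset (Fin n)) (p : Fin n) :
    ∑ j ∈ A, ee p j = if p ∈ A then 1 else 0 := by
  unfold ee
  rw [sum_ite_eq']

theorem sum_ind_on (A F : Finset (Fin n)) : ∑ j ∈ A, ind F j = ((F ∩ A).card : ℤ) := by
  unfold ind
  rw [sum_ite_mem, sum_const, inter_comm]
  simp

theorem part_sum {A : Finset (Fin n)} (hA : IsPart G A) {s : ℕ} {x : Z n} (h : PM G s x) :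
    ∑ j ∈ A, x j = s := by
  induction h with
  | zero => simp
  | @add s x a b _ hab ih =>
    have h1 : ∑ j ∈ A, (x + ee a + ee b) j = ∑ j ∈ A, x j + ∑ j ∈ A, ee a j + ∑ j ∈ A, ee b j := by
      rw [← sum_add_distrib, ← sum_add_distrib]
      rfl
    rw [h1, ih, sum_ee_on, sum_ee_on]
    have h2 := hA a b hab
    by_cases ha : a ∈ A
    · rw [if_pos ha, if_neg (h2.mp ha)]
      push_cast
      ring
    · have hb : b ∈ A := by
        by_contra hb
        exact ha (h2.mpr hb)
      rw [if_neg ha, if_pos hb]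
      push_cast
      ring

theorem cone_zero {z : Finset (Fin n) → K} (hb : bd z = 0) (l : Fin n)
    (h0 : ∀ F, z F ≠ 0 → l ∈ F) : z = 0 := by
  funext F
  rw [Pi.zero_apply]
  by_contra hF
  have hF0 := h0 F hF
  have h4 : bd z (F.erase l) = 0 := by rw [hb]; rfl
  have h5 : bd z (F.erase l) = eps K l (F.erase l) * z (insert l (F.erase l)) := by
    unfold Pool.Agent.KS6_47.CEgPoly.bd
    apply sum_eq_single_of_mem
    · rw [mem_sdiff]
      exact ⟨mem_univ _, notMem_erase _ _⟩
    · intro j _ hj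
      have h6 : z (insert j (F.erase l)) = 0 := by
        by_contra h7
        have h8 := h0 _ h7
        rw [mem_insert] at h8
        rcases h8 with h8 | h8
        · exact hj h8.symm
        · exact notMem_erase _ _ h8
      rw [h6, mul_zero]
  rw [h5, insert_erase hF0] at h4
  rcases mul_eq_zero.mp h4 with h9 | h9
  · exact eps_ne _ _ h9
  · exact hF h9

/-- all the sets in the support of a cycle meet a part in the same number of points, which is at
most `s` and smaller than the part -/
theorem part_card {A : Finset (Fin n)} (hA : IsPart G A) {s i : ℕ} {c : Z n} (hc : 0 ≤ c)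
    {z : Finset (Fin n) → K} (hz : z ∈ Zc K G s i c) (hz0 : z ≠ 0) {F : Finset (Fin n)}
    (hF : z F ≠ 0) : (F ∩ A).card ≤ min s (A.card - 1) := by
  obtain ⟨hb, hS⟩ := mem_Zc.mp hz
  have key : ∀ F, z F ≠ 0 → ∑ j ∈ A, c j + ((F ∩ A).card : ℤ) = s := by
    intro F hF
    have h1 := part_sum hA (hS F hF).2
    have h2 : ∑ j ∈ A, (c + ind F) j = ∑ j ∈ A, c j + ∑ j ∈ A, ind F j := by
      rw [← sum_add_distrib]; rfl
    rw [h2, sum_ind_on] at h1
    exact h1
  have hcA : 0 ≤ ∑ j ∈ A, c j := sum_nonneg fun j _ => hc j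
  have k := key F hF
  refine le_min (by omega) ?_
  by_contra hcon
  have hle : (F ∩ A).card ≤ A.card := card_le_card inter_subset_right
  have heq : (F ∩ A).card = A.card := by omega
  have hpos : 0 < A.card := by omega
  obtain ⟨l, hl⟩ := card_pos.mp hpos
  apply hz0
  apply cone_zero hb l
  intro F' hF'
  have k' := key F' hF'
  have h3 : (F' ∩ A).card = A.card := by omega
  have h4 : F' ∩ A = A := eq_of_subset_of_card_le inter_subset_right h3.ge
  rw [← h4] at hl
  exact (mem_inter.mp hl).1

/-- **Vanishing for bipartite graphs.** -/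
theorem bip_bot (hG : G.Connected) {A : Finset (Fin n)} (hA : IsPart G A) {i s : ℕ}
    (h : min s (A.card - 1) + min s (Aᶜ.card - 1) < i) : HS i (compEdge K G ^ s) = ⊥ := by
  unfold HS
  rw [Ideal.span_eq_bot]
  rintro _ ⟨a, ha, rfl⟩
  exfalso
  obtain ⟨hc, hsum, z, hz, hz0⟩ := (tor_iff hG s i a).mp ha
  obtain ⟨F, hF⟩ := Function.ne_iff.mp hz0
  have h1 := part_card hA hc hz hz0 hF
  have h2 := part_card hA.compl hc hz hz0 hF
  have h3 : F.card = i := ((mem_Zc.mp hz).2 F hF).1
  have h4 : (F ∩ A).card + (F ∩ Aᶜ).card = F.card := by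
    rw [← card_union_of_disjoint, ← inter_union_distrib_left, union_compl, inter_univ]
    exact (disjoint_compl_right (a := A)).mono inter_subset_right inter_subset_right
  omega

end Pool.Agent.KS6_47.CEg
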