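import Pool.Agent.KS6_47.CEg.Bip

/-! Non-vanishing for complete bipartite graphs. -/

set_option autoImplicit false
open Finset

namespace Pool.Agent.KS6_47.CEg

open Pool.Agent.KS6_47.CEgPoly (bd cone eps bd_add bd_sub bd_bd bd_cone bd_ne eps_sq)
open Pool.Agent.KS6_47.CEg.Tor

variable {n : ℕ} {G : SimpleGraph (Fin n)} {K : Type*} [Field K]

theorem kb_mk {A : Finset (Fin n)} (hK : ∀ a ∈ A, ∀ b ∉ A, G.Adj a b) (s : ℕ) :
    ∀ x : Z n, 0 ≤ x → ∑ j ∈ A, x j = s → ∑ j ∈ Aᶜ, x j = s → PM G s x := by
  induction s with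
  | zero =>
    intro x hx h1 h2
    have e1 := (sum_eq_zero_iff_of_nonneg (fun j _ => hx j)).mp (by simpa using h1)
    have e2 := (sum_eq_zero_iff_of_nonneg (fun j _ => hx j)).mp (by simpa using h2)
    refine PM.of_eq PM.zero ?_
    funext j
    by_cases hj : j ∈ A
    · exact (e1 j hj).symm
    · exact (e2 j (mem_compl.mpr hj)).symm
  | succ s ih =>
    intro x hx h1 h2
    have f1 : ∃ a ∈ A, 0 < x a := by
      by_contra hcon
      push Not at hcon
      have : ∑ j ∈ A, x j ≤ 0 := sum_nonpos hcon
      rw [h1] at this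
      push_cast at this
      omega
    have f2 : ∃ b ∈ Aᶜ, 0 < x b := by
      by_contra hcon
      push Not at hcon
      have : ∑ j ∈ Aᶜ, x j ≤ 0 := sum_nonpos hcon
      rw [h2] at this
      push_cast at this
      omega
    obtain ⟨a, ha, hxa⟩ := f1
    obtain ⟨b, hb, hxb⟩ := f2
    have hb' := mem_compl.mp hb
    have hab : a ≠ b := fun h => hb' (h ▸ ha)
    have g1 : ∀ B : Finset (Fin n), ∑ j ∈ B, (x - ee a - ee b) j =
        ∑ j ∈ B, x j - (if a ∈ B then 1 else 0) - (if b ∈ B then 1 else 0) := by
      intro B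
      rw [← sum_ee_on B a, ← sum_ee_on B b, ← sum_sub_distrib, ← sum_sub_distrib]
      rfl
    have h3 := ih (x - ee a - ee b) (by
      intro j
      show (0 : ℤ) ≤ x j - ee a j - ee b j
      have hj : 0 ≤ x j := hx j
      by_cases hja : j = a
      · subst hja
        rw [ee_self, ee_ne hab]
        omega
      · by_cases hjb : j = b
        · subst hjb
          rw [ee_self, ee_ne hja]
          omega
        · rw [ee_ne hja, ee_ne hjb]
          omega) (by
      rw [g1, if_pos ha, if_neg hb', h1]
      push_cast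
      ring) (by
      rw [g1, if_neg (fun h => (mem_compl.mp h) ha), if_pos hb, h2]
      push_cast
      ring)
    exact (h3.add (hK a ha b hb')).of_eq (by abel)

theorem kb_ne_bot (hG : G.Connected) {A : Finset (Fin n)}
    (hK : ∀ a ∈ A, ∀ b ∉ A, G.Adj a b) {s p q : ℕ} (hps : p ≤ s) (hqs : q ≤ s)
    (hp : p < A.card) (hq : q < Aᶜ.card) : HS (p + q) (compEdge K G ^ s) ≠ ⊥ := by
  classical
  obtain ⟨FA, hFA, hcA⟩ : ∃ FA : Finset (Fin n), FA ⊆ A ∧ FA.card = p + 1 :=
    exists_subset_card_eq (by omega)
  obtain ⟨FB, hFB, hcB⟩ : ∃ FB : Finset (Fin n), FB ⊆ Aᶜ ∧ FB.card = q + 1 :=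
    exists_subset_card_eq (by omega)
  obtain ⟨a0, ha0⟩ := card_pos.mp (show 0 < A.card by omega)
  obtain ⟨b0, hb0⟩ := card_pos.mp (show 0 < Aᶜ.card by omega)
  have hb0' := mem_compl.mp hb0
  have hab : a0 ≠ b0 := fun h => hb0' (h ▸ ha0)
  have hdisj : Disjoint FA FB := (disjoint_compl_right (a := A)).mono hFA hFB
  set F' := FA ∪ FB with hF'
  have hF'A : F' ∩ A = FA := by
    rw [hF', union_inter_distrib_right, inter_eq_left.mpr hFA]
    have : FB ∩ A = ∅ := by
      rw [← disjoint_iff_inter_eq_empty]
      exact ((disjoint_compl_right (a := A)).mono_right hFB).symm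
    rw [this, union_empty]
  have hF'B : F' ∩ Aᶜ = FB := by
    rw [hF', union_inter_distrib_right, inter_eq_left.mpr hFB]
    have : FA ∩ Aᶜ = ∅ := by
      rw [← disjoint_iff_inter_eq_empty]
      exact (disjoint_compl_right (a := A)).mono_left hFA
    rw [this, empty_union]
  set v : Finset (Fin n) → K := bd (Pi.single F' (1 : K)) with hv
  set u : Finset (Fin n) → K := fun F => if FB ⊆ F then v F else 0 with hu
  have hvne : ∀ F, v F ≠ 0 → ∃ k, k ∉ F ∧ insert k F = F' := by
    intro F hF
    obtain ⟨j, hj, hne⟩ := bd_ne hF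
    refine ⟨j, hj, ?_⟩
    by_contra h
    rw [Pi.single_eq_of_ne h] at hne
    exact hne rfl
  have hunv : ∀ F, FB ⊆ F → bd u F = 0 := by
    intro F hF
    have h1 : bd u F = bd v F := by
      unfold Pool.Agent.KS6_47.CEgPoly.bd
      refine sum_congr rfl fun j _ => ?_
      have : u (insert j F) = v (insert j F) := if_pos (hF.trans (subset_insert j F))
      rw [this]
    rw [h1, hv, bd_bd]
    rfl
  have hsupp : ∀ F, bd u F ≠ 0 → (F ∩ A).card = p ∧ (F ∩ Aᶜ).card = q := by
    intro F hF
    obtain ⟨j, hj, hne⟩ := bd_ne hF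
    have h1 : FB ⊆ insert j F := by
      by_contra h
      exact hne (if_neg h)
    have h2 : v (insert j F) ≠ 0 := by
      have : u (insert j F) = v (insert j F) := if_pos h1
      rwa [this] at hne
    obtain ⟨k, hk, hkF⟩ := hvne _ h2
    have hjB : j ∈ FB := by
      by_contra h
      apply hF
      apply hunv
      intro x hx
      rcases mem_insert.mp (h1 hx) with h3 | h3
      · exact absurd (h3 ▸ hx) h
      · exact h3
    have hkB : k ∉ FB := fun h => hk (h1 h)
    have hkA : k ∈ FA := by
      have : k ∈ F' := by rw [← hkF]; exact mem_insert_self _ _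
      rcases mem_union.mp this with h | h
      · exact h
      · exact absurd h hkB
    have hjA : j ∉ A := mem_compl.mp (hFB hjB)
    have hkA' : k ∈ A := hFA hkA
    constructor
    · have h5 : FA = insert k (F ∩ A) := by
        rw [← hF'A, ← hkF, insert_inter_of_mem hkA', insert_inter_of_notMem hjA]
      rw [h5, card_insert_of_notMem (fun h => hk (mem_insert_of_mem (mem_inter.mp h).1))] at hcA
      omega
    · have h5 : FB = insert j (F ∩ Aᶜ) := by
        rw [← hF'B, ← hkF, insert_inter_of_notMem (fun h => (mem_compl.mp h) hkA'),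
          insert_inter_of_mem (hFB hjB)]
      rw [h5, card_insert_of_notMem (fun h => hj (mem_inter.mp h).1)] at hcB
      omega
  set a : Fin n →₀ ℕ := Finsupp.equivFunOnFinite.symm fun j =>
    if j = a0 then p else if j = b0 then q else s with ha
  have hcc : cc s a = ((s : ℤ) - p) • ee a0 + ((s : ℤ) - q) • ee b0 := by
    funext j
    show (s : ℤ) - ((if j = a0 then p else if j = b0 then q else s : ℕ) : ℤ) =
      ((s : ℤ) - p) * ee a0 j + ((s : ℤ) - q) * ee b0 j
    by_cases hj : j = a0
    · subst hj
      rw [ee_self, ee_ne hab, if_pos rfl]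
      ring
    · by_cases hj' : j = b0
      · subst hj'
        rw [ee_self, ee_ne hj, if_neg hj, if_pos rfl]
        ring
      · rw [ee_ne hj, ee_ne hj', if_neg hj, if_neg hj']
        ring
  have hccsum : ∀ B : Finset (Fin n), ∑ j ∈ B, cc s a j =
      ((s : ℤ) - p) * (if a0 ∈ B then 1 else 0) + ((s : ℤ) - q) * (if b0 ∈ B then 1 else 0) := by
    intro B
    rw [hcc, ← sum_ee_on B a0, ← sum_ee_on B b0, mul_sum, mul_sum, ← sum_add_distrib]
    rfl
  have hcc0 : 0 ≤ cc s a := by
    rw [hcc]
    intro j
    show (0 : ℤ) ≤ ((s : ℤ) - p) * ee a0 j + ((s : ℤ) - q) * ee b0 j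
    have h1 := ee_nonneg a0 j
    have h2 := ee_nonneg b0 j
    have h3 : (0 : ℤ) ≤ (s : ℤ) - p := by omega
    have h4 : (0 : ℤ) ≤ (s : ℤ) - q := by omega
    positivity
  have hT : TorNonzero (compEdge K G ^ s) (p + q) a := by
    refine (tor_iff hG s (p + q) a).mpr ⟨hcc0, ?_, bd u, ⟨?_, ?_⟩, ?_⟩
    · rw [hccsum, if_pos (mem_univ _), if_pos (mem_univ _)]
      push_cast
      ring
    · rw [bd_bd]
    · intro F hF
      obtain ⟨h1, h2⟩ := hsupp F hF
      have h4 : (F ∩ A).card + (F ∩ Aᶜ).card = F.card := by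
        rw [← card_union_of_disjoint, ← inter_union_distrib_left, union_compl, inter_univ]
        exact (disjoint_compl_right (a := A)).mono inter_subset_right inter_subset_right
      refine ⟨by omega, ?_⟩
      have hsum : ∀ B : Finset (Fin n), ∑ j ∈ B, (cc s a + ind F) j =
          ∑ j ∈ B, cc s a j + ((F ∩ B).card : ℤ) := by
        intro B
        rw [← sum_ind_on, ← sum_add_distrib]
        rfl
      apply kb_mk hK
      · intro j
        exact add_nonneg (hcc0 j) (ind_nonneg F j)
      · rw [hsum, hccsum, if_pos ha0, if_neg hb0', h1]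
        ring
      · rw [hsum, hccsum, if_neg (fun h => (mem_compl.mp h) ha0), if_pos hb0, h2]
        ring
    · intro h
      obtain ⟨pA, hpA⟩ := card_pos.mp (show 0 < FA.card by omega)
      obtain ⟨pB, hpB⟩ := card_pos.mp (show 0 < FB.card by omega)
      have hpA' : pA ∉ FB := fun hx => disjoint_left.mp hdisj hpA hx
      have hAF' : pA ∈ F' := mem_union_left _ hpA
      have hBF : pB ∈ F'.erase pA := by
        rw [mem_erase]
        exact ⟨fun hx => hpA' (hx ▸ hpB), mem_union_right _ hpB⟩
      have h1 : bd u ((F'.erase pA).erase pB) =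
          eps K pB ((F'.erase pA).erase pB) * u (insert pB ((F'.erase pA).erase pB)) := by
        unfold Pool.Agent.KS6_47.CEgPoly.bd
        apply sum_eq_single_of_mem
        · rw [mem_sdiff]
          exact ⟨mem_univ _, notMem_erase _ _⟩
        · intro j _ hj
          have h6 : u (insert j ((F'.erase pA).erase pB)) = 0 := by
            apply if_neg
            intro h7
            have h8 := h7 hpB
            rw [mem_insert] at h8
            rcases h8 with h8 | h8
            · exact hj h8.symm
            · exact notMem_erase _ _ h8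
          rw [h6, mul_zero]
      rw [insert_erase hBF] at h1
      have h2 : u (F'.erase pA) = v (F'.erase pA) := by
        apply if_pos
        intro x hx
        rw [mem_erase]
        exact ⟨fun hxa => hpA' (hxa ▸ hx), mem_union_right _ hx⟩
      have h3 : v (F'.erase pA) = eps K pA (F'.erase pA) * 1 := by
        rw [hv]
        unfold Pool.Agent.KS6_47.CEgPoly.bd
        rw [sum_eq_single_of_mem pA]
        · rw [insert_erase hAF', Pi.single_eq_same]
        · rw [mem_sdiff]
          exact ⟨mem_univ _, notMem_erase _ _⟩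
        · intro j hj hjp
          have h6 : insert j (F'.erase pA) ≠ F' := by
            intro h7
            have h8 : pA ∈ insert j (F'.erase pA) := by rw [h7]; exact hAF'
            rw [mem_insert] at h8
            rcases h8 with h8 | h8
            · exact hjp h8.symm
            · exact notMem_erase _ _ h8
          rw [Pi.single_eq_of_ne h6, mul_zero]
      rw [h, h2, h3, mul_one, Pi.zero_apply] at h1
      rcases mul_eq_zero.mp h1.symm with h9 | h9
      · exact eps_ne _ _ h9
      · exact eps_ne _ _ h9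
  intro hbot
  have h1 : (MvPolynomial.monomial a (1 : K)) ∈ HS (p + q) (compEdge K G ^ s) :=
    Ideal.subset_span ⟨a, hT, rfl⟩
  rw [hbot, Ideal.mem_bot, MvPolynomial.monomial_eq_zero] at h1
  exact one_ne_zero h1

/-- **The complete bipartite graphs: the exact vanishing range.** -/
theorem kb_iff (hG : G.Connected) {A : Finset (Fin n)} (hA : IsPart G A)
    (hK : ∀ a ∈ A, ∀ b ∉ A, G.Adj a b) (h1 : 0 < A.card) (h2 : 0 < Aᶜ.card) (i s : ℕ) :
    HS i (compEdge K G ^ s) = ⊥ ↔ min s (A.card - 1) + min s (Aᶜ.card - 1) < i := by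
  constructor
  · intro h
    by_contra hcon
    push Not at hcon
    obtain ⟨p, q, hpq, hp, hq⟩ : ∃ p q, p + q = i ∧ p ≤ min s (A.card - 1) ∧
        q ≤ min s (Aᶜ.card - 1) := by
      by_cases hi : i ≤ min s (A.card - 1)
      · exact ⟨i, 0, by omega, hi, by omega⟩
      · exact ⟨min s (A.card - 1), i - min s (A.card - 1), by omega, le_rfl, by omega⟩
    have e1 := le_min_iff.mp hp
    have e2 := le_min_iff.mp hq
    exact kb_ne_bot hG hK (s := s) (p := p) (q := q) e1.1 e2.1 (by omega) (by omega)
      (hpq ▸ h)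
  · exact bip_bot hG hA

end Pool.Agent.KS6_47.CEg
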