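import Pool.Agent.KS6_47.CEg.PolyA

/-! Koszul strands of monomial ideals with linear quotients. -/

set_option autoImplicit false
open Finset

namespace Pool.Agent.KS6_47.CEgPoly

variable {n : ℕ} {K : Type*} [Field K]

/-- the sign of `j` with respect to `G` -/
def eps (K : Type*) [Field K] (j : Fin n) (G : Finset (Fin n)) : K :=
  (-1) ^ (G.filter (· < j)).card

/-- the boundary of the simplicial chain complex -/
def bd (c : Finset (Fin n) → K) (G : Finset (Fin n)) : K :=
  ∑ j ∈ univ \ G, eps K j G * c (insert j G)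

theorem eps_sq (j : Fin n) (G : Finset (Fin n)) : eps K j G * eps K j G = 1 := by
  rw [eps, ← pow_add, ← two_mul, pow_mul]
  simp

theorem eps_insert (p j : Fin n) (G : Finset (Fin n)) (hp : p ∉ G) :
    eps K j (insert p G) = if p < j then - eps K j G else eps K j G := by
  unfold eps
  rw [filter_insert]
  split_ifs with h
  · rw [card_insert_of_notMem, pow_succ]
    · ring
    · rw [mem_filter]
      exact fun h => hp h.1
  · rfl

theorem eps_swap (p j : Fin n) (G : Finset (Fin n)) (hp : p ∉ G) (hj : j ∉ G) (hne : p ≠ j) :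
    eps K j (insert p G) * eps K p (insert j G) = -(eps K p G * eps K j G) := by
  rw [eps_insert p j G hp, eps_insert j p G hj]
  rcases lt_or_gt_of_ne hne with h | h
  · rw [if_pos h, if_neg (not_lt.mpr h.le)]
    ring
  · rw [if_neg (not_lt.mpr h.le), if_pos h]
    ring

theorem bd_add (c e : Finset (Fin n) → K) : bd (c + e) = bd c + bd e := by
  funext G
  simp only [bd, Pi.add_apply, mul_add, sum_add_distrib]

theorem bd_sub (c e : Finset (Fin n) → K) : bd (c - e) = bd c - bd e := by
  funext G
  simp only [bd, Pi.sub_apply, mul_sub, sum_sub_distrib]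

theorem bd_bd (c : Finset (Fin n) → K) : bd (bd c) = 0 := by
  funext H
  rw [Pi.zero_apply]
  simp only [bd, mul_sum]
  rw [sum_sigma']
  refine sum_involution (fun x _ => ⟨x.2, x.1⟩) ?_ ?_ ?_ ?_
  · rintro ⟨j, l⟩ h
    rw [mem_sigma, mem_sdiff, mem_sdiff, mem_insert, not_or] at h
    obtain ⟨⟨-, hj⟩, -, hl1, hl2⟩ := h
    dsimp only at hj hl1 hl2 ⊢
    rw [Finset.insert_comm l j H]
    have h1 := eps_swap (K := K) j l H hj hl2 (Ne.symm hl1)
    have e1 := eps_sq (K := K) j H
    have e2 := eps_sq (K := K) l H
    have e3 := eps_sq (K := K) l (insert j H)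
    have e4 := eps_sq (K := K) j (insert l H)
    have key : eps K j H * eps K l (insert j H) = -(eps K l H * eps K j (insert l H)) := by
      calc eps K j H * eps K l (insert j H)
          = (eps K l (insert j H) * eps K j (insert l H)) * (eps K j H * eps K j (insert l H)) := by
            linear_combination (-(eps K j H * eps K l (insert j H))) * e4
        _ = -(eps K j H * eps K l H) * (eps K j H * eps K j (insert l H)) := by rw [h1]
        _ = -(eps K l H * eps K j (insert l H)) := by
            linear_combination (-(eps K l H * eps K j (insert l H))) * e1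
    linear_combination (c (insert j (insert l H))) * key
  · rintro ⟨j, l⟩ h _ heq
    rw [mem_sigma, mem_sdiff, mem_sdiff, mem_insert, not_or] at h
    obtain ⟨⟨-, hj⟩, -, hl1, hl2⟩ := h
    dsimp only at hj hl1 hl2 heq
    have := congrArg Sigma.fst heq
    exact hl1 this
  · rintro ⟨j, l⟩ h
    rw [mem_sigma, mem_sdiff, mem_sdiff, mem_insert, not_or] at h ⊢
    obtain ⟨⟨-, hj⟩, -, hl1, hl2⟩ := h
    dsimp only at hj hl1 hl2 ⊢
    exact ⟨⟨mem_univ _, hl2⟩, mem_univ _, Ne.symm hl1, hj⟩
  · rintro ⟨j, l⟩ _
    rfl

/-- the cone over a chain -/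
def cone (p : Fin n) (c : Finset (Fin n) → K) (F : Finset (Fin n)) : K :=
  if p ∈ F then eps K p (F.erase p) * c (F.erase p) else 0

theorem bd_cone (p : Fin n) (c : Finset (Fin n) → K) : bd (cone p c) = c - cone p (bd c) := by
  funext G
  rw [Pi.sub_apply]
  by_cases hp : p ∈ G
  · obtain ⟨G', hG', rfl⟩ : ∃ G', p ∉ G' ∧ G = insert p G' :=
      ⟨G.erase p, notMem_erase _ _, (insert_erase hp).symm⟩
    rw [cone, if_pos hp, erase_insert hG', bd, bd]
    have h1 : univ \ G' = insert p (univ \ insert p G') := by
      ext x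
      simp only [mem_sdiff, mem_univ, true_and, mem_insert, not_or]
      by_cases hx : x = p
      · subst hx
        simp [hG']
      · simp [hx]
    rw [h1, sum_insert (by simp), mul_add, ← mul_assoc, eps_sq, one_mul, sub_add_cancel_left,
      mul_sum, ← sum_neg_distrib]
    refine sum_congr rfl fun j hj => ?_
    rw [mem_sdiff, mem_insert, not_or] at hj
    obtain ⟨-, hjp, hjG⟩ := hj
    rw [cone, if_pos (mem_insert_of_mem (mem_insert_self _ _))]
    have h2 : (insert j (insert p G')).erase p = insert j G' := by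
      rw [Finset.insert_comm, erase_insert]
      rw [mem_insert, not_or]
      exact ⟨Ne.symm hjp, hG'⟩
    rw [h2, ← mul_assoc, ← mul_assoc, eps_swap p j G' hG' hjG (Ne.symm hjp)]
    ring
  · rw [cone, if_neg hp, sub_zero, bd, sum_eq_single p]
    · rw [cone, if_pos (mem_insert_self _ _), erase_insert hp, ← mul_assoc, eps_sq, one_mul]
    · intro j _ hjp
      rw [cone, if_neg, mul_zero]
      rw [mem_insert, not_or]
      exact ⟨Ne.symm hjp, hp⟩
    · intro h
      exact absurd (mem_sdiff.mpr ⟨mem_univ _, hp⟩) h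

/-- the indicator vector -/
noncomputable def ind (F : Finset (Fin n)) : V n := ∑ i ∈ F, ee i

theorem ind_apply (F : Finset (Fin n)) (i : Fin n) : ind F i = if i ∈ F then 1 else 0 := by
  rw [ind, Finsupp.finsetSum_apply]
  simp only [ee_apply]
  rw [sum_ite_eq]

theorem sum_ind (F : Finset (Fin n)) : ∑ i, ind F i = F.card := by
  simp only [ind_apply]
  rw [sum_ite_mem, univ_inter, sum_const, smul_eq_mul, mul_one]

theorem ind_insert (F : Finset (Fin n)) (p : Fin n) (hp : p ∉ F) :
    ind (insert p F) = ee p + ind F := by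
  rw [ind, sum_insert hp]; rfl

theorem ind_mono {F G : Finset (Fin n)} (h : F ⊆ G) : ind F ≤ ind G := by
  intro i
  rw [ind_apply, ind_apply]
  split_ifs with h1 h2
  · exact le_rfl
  · exact absurd (h h1) h2
  · exact Nat.zero_le _
  · exact le_rfl

/-- `v` comes before `u` -/
def rl (v u : V n) : Prop := toColex (v : Fin n → ℕ) < toColex (u : Fin n → ℕ)

theorem rl_iff (v u : V n) : rl v u ↔ ∃ p, (∀ j, p < j → v j = u j) ∧ v p < u p := Iff.rfl

theorem rl_irrefl (u : V n) : ¬ rl u u := lt_irrefl _

/-- linear quotients -/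
def LQ (C : Finset (V n)) : Prop :=
  ∀ u ∈ C, ∀ v ∈ C, rl v u → ∃ q, u q < v q ∧ ∃ w ∈ C, rl w u ∧ w ≤ u + ee q

/-- the colon variables -/
def st (C : Finset (V n)) (u : V n) (q : Fin n) : Prop := ∃ w ∈ C, rl w u ∧ w ≤ u + ee q

/-- the strand -/
def Del (C : Finset (V n)) (a : V n) (F : Finset (Fin n)) : Prop := ∃ u ∈ C, u + ind F ≤ a

theorem Del.mono {C : Finset (V n)} {a : V n} {F G : Finset (Fin n)} (h : Del C a G)
    (hFG : F ⊆ G) : Del C a F := by
  obtain ⟨u, hu, h⟩ := h
  exact ⟨u, hu, (add_le_add_right (ind_mono hFG) u).trans h⟩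

/-- chains -/
def Ch (C : Finset (V n)) (a : V n) (i : ℕ) (c : Finset (Fin n) → K) : Prop :=
  ∀ F, c F ≠ 0 → F.card = i ∧ Del C a F

theorem bd_ne {c : Finset (Fin n) → K} {G : Finset (Fin n)} (h : bd c G ≠ 0) :
    ∃ j, j ∉ G ∧ c (insert j G) ≠ 0 := by
  obtain ⟨j, hj, hne⟩ := exists_ne_zero_of_sum_ne_zero h
  exact ⟨j, (mem_sdiff.mp hj).2, right_ne_zero_of_mul hne⟩

theorem st_insert {C : Finset (V n)} {u u₁ : V n} (hmax : ∀ x ∈ C, toColex (x : Fin n → ℕ) ≤
    toColex (u : Fin n → ℕ)) (h1 : u₁ ∈ C) (q : Fin n) (h : st (insert u C) u₁ q) :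
    st C u₁ q := by
  obtain ⟨w, hw, hrl, hle⟩ := h
  rcases mem_insert.mp hw with rfl | hw
  · exact absurd (lt_of_lt_of_le hrl (hmax u₁ h1)) (lt_irrefl _)
  · exact ⟨w, hw, hrl, hle⟩

/-- **acyclicity** -/
theorem acyclic (C : Finset (V n)) : LQ C → ∀ (i : ℕ) (a : V n) (z : Finset (Fin n) → K),
    Ch C a i z → bd z = 0 →
    (¬ ∃ u ∈ C, ∃ F : Finset (Fin n), F.card = i ∧ a = u + ind F ∧ ∀ f ∈ F, st C u f) →
    ∃ w : Finset (Fin n) → K, Ch C a (i + 1) w ∧ bd w = z := by
  classical
  refine Finset.induction_on_max_value (fun u : V n => toColex (u : Fin n → ℕ)) C ?_ ?_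
  · intro _ i a z hz _ _
    refine ⟨0, fun F hF => absurd rfl hF, ?_⟩
    have : z = 0 := by
      funext F
      by_contra hF
      obtain ⟨u, hu, -⟩ := (hz F hF).2
      exact absurd hu (notMem_empty _)
    rw [this]
    funext G
    simp [bd]
  · intro u C' huC' hmax ih hLQ i a z hz hbz hno
    have hrl : ∀ v ∈ C', rl v u := by
      intro v hv
      refine lt_of_le_of_ne (hmax v hv) ?_
      intro h
      apply huC'
      have : v = u := DFunLike.coe_injective (toColex.injective h)
      rwa [← this]
    have hLQ' : LQ C' := by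
      intro u₁ hu₁ v₁ hv₁ hr
      obtain ⟨q, hq, hst⟩ := hLQ u₁ (mem_insert_of_mem hu₁) v₁ (mem_insert_of_mem hv₁) hr
      exact ⟨q, hq, st_insert hmax hu₁ q hst⟩
    have hno' : ¬ ∃ u ∈ C', ∃ F : Finset (Fin n), F.card = i ∧ a = u + ind F ∧
        ∀ f ∈ F, st C' u f := by
      rintro ⟨u₁, hu₁, F, hF, ha, hst⟩
      refine hno ⟨u₁, mem_insert_of_mem hu₁, F, hF, ha, fun f hf => ?_⟩
      obtain ⟨w, hw, h1⟩ := hst f hf
      exact ⟨w, mem_insert_of_mem hw, h1⟩
    have ih' := ih hLQ' i a
    -- reduction to chains without the new part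
    have hred : ∀ z : Finset (Fin n) → K, Ch C' a i z → bd z = 0 →
        ∃ w : Finset (Fin n) → K, Ch (insert u C') a (i + 1) w ∧ bd w = z := by
      intro z hz hbz
      obtain ⟨w, hw, hbw⟩ := ih' z hz hbz hno'
      refine ⟨w, fun F hF => ⟨(hw F hF).1, ?_⟩, hbw⟩
      obtain ⟨v, hv, h1⟩ := (hw F hF).2
      exact ⟨v, mem_insert_of_mem hv, h1⟩
    -- the relative part
    have hR : ∀ F, Del (insert u C') a F → ¬ Del C' a F → u + ind F ≤ a := by
      rintro F ⟨v, hv, h1⟩ h2
      rcases mem_insert.mp hv with rfl | hv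
      · exact h1
      · exact absurd ⟨v, hv, h1⟩ h2
    have hiff : ∀ F, u + ind F ≤ a →
        (Del C' a F ↔ ∃ q, st (insert u C') u q ∧ u q + ind F q < a q) := by
      intro F hF
      constructor
      · rintro ⟨v, hv, hva⟩
        obtain ⟨q, hq, hst⟩ := hLQ u (mem_insert_self _ _) v (mem_insert_of_mem hv) (hrl v hv)
        refine ⟨q, hst, ?_⟩
        have := hva q
        rw [Finsupp.add_apply] at this
        omega
      · rintro ⟨q, ⟨w, hw, hwr, hwle⟩, hq⟩
        rcases mem_insert.mp hw with rfl | hw
        · exact absurd hwr (rl_irrefl _)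
        · refine ⟨w, hw, ?_⟩
          intro j
          have h1 := hwle j
          have h2 := hF j
          rw [Finsupp.add_apply] at h1 h2 ⊢
          rw [ee_apply] at h1
          split_ifs at h1 with h3
          · subst h3
            omega
          · omega
    by_cases hB : ∃ p, ¬ st (insert u C') u p ∧ u p < a p
    · obtain ⟨p, hp1, hp2⟩ := hB
      -- toggling `p`
      let R : Finset (Fin n) → Prop := fun F => Del (insert u C') a F ∧ ¬ Del C' a F
      have hRins : ∀ F, R F → R (insert p F) := by
        rintro F ⟨h1, h2⟩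
        have h3 := hR F h1 h2
        by_cases hpF : p ∈ F
        · rw [insert_eq_of_mem hpF]; exact ⟨h1, h2⟩
        · have h4 : u + ind (insert p F) ≤ a := by
            rw [ind_insert F p hpF]
            intro j
            have h5 := h3 j
            rw [Finsupp.add_apply] at h5
            rw [Finsupp.add_apply, Finsupp.add_apply, ee_apply]
            by_cases h6 : j = p
            · subst h6
              rw [ind_apply, if_neg hpF, if_pos rfl]
              omega
            · rw [if_neg h6]
              omega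
          refine ⟨⟨u, mem_insert_self _ _, h4⟩, ?_⟩
          rw [hiff _ h4]
          rintro ⟨q, hq1, hq2⟩
          apply h2
          rw [hiff _ h3]
          refine ⟨q, hq1, lt_of_le_of_lt ?_ hq2⟩
          exact Nat.add_le_add_left (ind_mono (subset_insert _ _) q) _
      have hRer : ∀ F, R F → R (F.erase p) := by
        rintro F ⟨h1, h2⟩
        have h3 := hR F h1 h2
        have h4 : u + ind (F.erase p) ≤ a := (add_le_add_right (ind_mono (erase_subset _ _)) u).trans h3
        refine ⟨⟨u, mem_insert_self _ _, h4⟩, ?_⟩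
        rw [hiff _ h4]
        rintro ⟨q, hq1, hq2⟩
        apply h2
        rw [hiff _ h3]
        refine ⟨q, hq1, ?_⟩
        have hqp : q ≠ p := by rintro rfl; exact hp1 hq1
        have h5 : ind F q = ind (F.erase p) q := by
          rw [ind_apply, ind_apply]
          simp [hqp]
        rw [h5]
        exact hq2
      let zR : Finset (Fin n) → K := fun F => if R F then z F else 0
      have hzR : ∀ G, R G → bd zR G = 0 := by
        intro G hG
        have h1 : bd zR G = bd z G := by
          refine sum_congr rfl fun j _ => ?_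
          congr 1
          show (if R (insert j G) then z (insert j G) else 0) = z (insert j G)
          by_cases h2 : z (insert j G) = 0
          · rw [h2, ite_self]
          · rw [if_pos]
            refine ⟨(hz _ h2).2, fun h3 => hG.2 (h3.mono (subset_insert _ _))⟩
        rw [h1, hbz, Pi.zero_apply]
      let w1 : Finset (Fin n) → K := cone p zR
      have hw1 : Ch (insert u C') a (i + 1) w1 := by
        intro F hF
        have hpF : p ∈ F := by
          by_contra hcon
          exact hF (if_neg hcon)
        have h1 : zR (F.erase p) ≠ 0 := by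
          intro h0
          apply hF
          show (if p ∈ F then eps K p (F.erase p) * zR (F.erase p) else 0) = 0
          rw [h0, mul_zero, ite_self]
        have h2 : R (F.erase p) := by
          by_contra hcon
          exact h1 (if_neg hcon)
        have h3 : z (F.erase p) ≠ 0 := by
          intro h0
          apply h1
          show (if R (F.erase p) then z (F.erase p) else 0) = 0
          rw [h0, ite_self]
        constructor
        · have := (hz _ h3).1
          rw [card_erase_of_mem hpF] at this
          have := card_pos.mpr ⟨p, hpF⟩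
          omega
        · have h4 := (hRins _ h2).1
          rwa [insert_erase hpF] at h4
      have hz' : Ch C' a i (z - bd w1) := by
        intro F hF
        have hor : z F ≠ 0 ∨ bd w1 F ≠ 0 := by
          by_contra hcon
          push Not at hcon
          apply hF
          rw [Pi.sub_apply, hcon.1, hcon.2, sub_zero]
        have h1 : F.card = i ∧ Del (insert u C') a F := by
          rcases hor with h | h
          · exact hz F h
          · obtain ⟨j, hj, hne⟩ := bd_ne h
            have h2 := hw1 _ hne
            rw [card_insert_of_notMem hj] at h2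
            exact ⟨by omega, h2.2.mono (subset_insert _ _)⟩
        refine ⟨h1.1, ?_⟩
        by_contra hcon
        have hRF : R F := ⟨h1.2, hcon⟩
        apply hF
        have h2 : bd w1 = zR - cone p (bd zR) := bd_cone p zR
        rw [Pi.sub_apply, h2, Pi.sub_apply]
        have h3 : cone p (bd zR) F = 0 := by
          show (if p ∈ F then eps K p (F.erase p) * bd zR (F.erase p) else 0) = 0
          rw [hzR _ (hRer F hRF), mul_zero, ite_self]
        have h4 : zR F = z F := if_pos hRF
        rw [h3, h4]
        ring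
      obtain ⟨w, hw, hbw⟩ := hred (z - bd w1) hz' (by
        rw [bd_sub, hbz, bd_bd, sub_zero])
      refine ⟨w + w1, ?_, by rw [bd_add, hbw, sub_add_cancel]⟩
      intro F hF
      by_cases h : w F = 0
      · apply hw1
        intro h2
        apply hF
        rw [Pi.add_apply, h, h2, add_zero]
      · exact hw F h
    · -- no free direction
      push Not at hB
      apply hred z _ hbz
      intro F hF
      refine ⟨(hz F hF).1, ?_⟩
      by_contra hcon
      have h1 := hR F (hz F hF).2 hcon
      apply hno
      refine ⟨u, mem_insert_self _ _, F, (hz F hF).1, ?_, ?_⟩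
      · ext q
        have h2 := h1 q
        by_cases hq : st (insert u C') u q
        · rw [hiff F h1] at hcon
          push Not at hcon
          have h3 := hcon q hq
          rw [Finsupp.add_apply] at h2 ⊢
          omega
        · have h3 := hB q hq
          rw [Finsupp.add_apply] at h2 ⊢
          omega
      · intro f hf
        by_contra hst
        have h3 := hB f hst
        have h2 := h1 f
        rw [Finsupp.add_apply, ind_apply, if_pos hf] at h2
        omega

/-- **non-vanishing** -/
theorem nonzero (C : Finset (V n)) (hLQ : LQ C) {d : ℕ} (hd : ∀ u ∈ C, ∑ i, u i = d) (u : V n)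
    (hu : u ∈ C) (F : Finset (Fin n)) (hF : F.Nonempty) (hst : ∀ f ∈ F, st C u f) :
    ∃ z : Finset (Fin n) → K, Ch C (u + ind F) F.card z ∧ bd z = 0 ∧
      ∀ w : Finset (Fin n) → K, Ch C (u + ind F) (F.card + 1) w → bd w ≠ z := by
  classical
  let C' := C.filter fun v => rl v u
  have hLQ' : LQ C' := by
    intro u₁ hu₁ v₁ hv₁ hr
    rw [mem_filter] at hu₁ hv₁
    obtain ⟨q, hq, w, hw, hwr, hwle⟩ := hLQ u₁ hu₁.1 v₁ hv₁.1 hr
    exact ⟨q, hq, w, mem_filter.mpr ⟨hw, lt_trans hwr hu₁.2⟩, hwr, hwle⟩
  let δ : Finset (Fin n) → K := fun G => if G = F then 1 else 0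
  have hδ : ∀ G, δ G ≠ 0 → G = F := by
    intro G hG
    by_contra hcon
    exact hG (if_neg hcon)
  have hch : Ch C' (u + ind F) (F.card - 1) (bd δ) := by
    intro G hG
    obtain ⟨j, hj, hne⟩ := bd_ne hG
    have h1 := hδ _ hne
    have hjF : j ∈ F := by rw [← h1]; exact mem_insert_self _ _
    constructor
    · rw [← h1, card_insert_of_notMem hj]
      omega
    · obtain ⟨w, hw, hwr, hwle⟩ := hst j hjF
      refine ⟨w, mem_filter.mpr ⟨hw, hwr⟩, ?_⟩
      rw [← h1, ind_insert G j hj, ← add_assoc]
      exact add_le_add_left hwle _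
  obtain ⟨w, hw, hbw⟩ := acyclic C' hLQ' (F.card - 1) (u + ind F) (bd δ) hch (bd_bd δ) (by
    rintro ⟨v, hv, G, hG, heq, -⟩
    have h1 : ∑ i, (u + ind F) i = ∑ i, (v + ind G) i := by rw [heq]
    simp only [Finsupp.add_apply, sum_add_distrib, sum_ind] at h1
    rw [hd u hu, hd v (mem_filter.mp hv).1, hG] at h1
    have := card_pos.mpr hF
    omega)
  have hwF : w F = 0 := by
    by_contra hcon
    obtain ⟨v, hv, hle⟩ := (hw F hcon).2
    have hvC := mem_filter.mp hv
    have h1 : v ≤ u := by
      intro j
      have := hle j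
      rw [Finsupp.add_apply, Finsupp.add_apply] at this
      omega
    have h2 : v = u := by
      ext j
      have h3 : ∑ i, v i = ∑ i, u i := by rw [hd v hvC.1, hd u hu]
      exact (sum_eq_sum_iff_of_le fun i _ => h1 i).mp h3 j (mem_univ _)
    rw [h2] at hvC
    exact rl_irrefl u hvC.2
  refine ⟨δ - w, ?_, ?_, ?_⟩
  · intro G hG
    by_cases h : w G = 0
    · have h1 : δ G ≠ 0 := by
        intro h2
        apply hG
        rw [Pi.sub_apply, h, h2, sub_zero]
      rw [hδ G h1]
      exact ⟨rfl, u, hu, le_rfl⟩
    · have h1 := hw G h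
      obtain ⟨v, hv, hle⟩ := h1.2
      refine ⟨?_, v, (mem_filter.mp hv).1, hle⟩
      have := card_pos.mpr hF
      omega
  · rw [bd_sub, hbw, sub_self]
  · intro w' hw' hbw'
    have h1 : w' = 0 := by
      funext G
      by_contra hG
      obtain ⟨h2, v, hv, hle⟩ := hw' G hG
      have h3 : ∑ i, (v + ind G) i ≤ ∑ i, (u + ind F) i := sum_le_sum fun i _ => hle i
      simp only [Finsupp.add_apply, sum_add_distrib, sum_ind] at h3
      rw [hd u hu, hd v hv, h2] at h3
      omega
    have h2 : (δ - w) F = 0 := by
      rw [← hbw', h1]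
      simp [bd]
    rw [Pi.sub_apply, hwF, sub_zero] at h2
    have h3 : δ F = 1 := if_pos rfl
    rw [h3] at h2
    exact one_ne_zero h2

end Pool.Agent.KS6_47.CEgPoly
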