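import Pool.Agent.KS6_47.CEg.PolyB

/-! Relative acyclicity of Koszul strands with linear quotients. -/

set_option autoImplicit false
open Finset

namespace Pool.Agent.KS6_47.CEg

open Pool.Agent.KS6_47.CEgPoly (bd cone eps bd_add bd_sub bd_bd bd_cone bd_ne)

variable {n : ℕ}

/-- integer vectors -/
abbrev Z (n : ℕ) := Fin n → ℤ

/-- unit vector -/
def ee (p : Fin n) : Z n := fun j => if j = p then 1 else 0

/-- indicator vector -/
def ind (F : Finset (Fin n)) : Z n := fun j => if j ∈ F then 1 else 0

theorem ee_self (p : Fin n) : ee p p = 1 := if_pos rfl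

theorem ee_ne {p j : Fin n} (h : j ≠ p) : ee p j = 0 := if_neg h

theorem ee_nonneg (p j : Fin n) : 0 ≤ ee p j := by
  unfold ee; split_ifs <;> decide

theorem ee_le (p j : Fin n) : ee p j ≤ 1 := by
  unfold ee; split_ifs <;> decide

theorem ind_nonneg (F : Finset (Fin n)) (j : Fin n) : 0 ≤ ind F j := by
  unfold ind; split_ifs <;> decide

theorem sum_ee (p : Fin n) : ∑ j, ee p j = 1 := by
  simp [ee]

theorem sum_ind (F : Finset (Fin n)) : ∑ j, ind F j = F.card := by
  simp [ind]

theorem ind_insert (F : Finset (Fin n)) (p : Fin n) (hp : p ∉ F) :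
    ind (insert p F) = ind F + ee p := by
  funext j
  rw [Pi.add_apply]
  unfold ind ee
  by_cases h : j = p
  · subst h; simp [hp]
  · simp [h]

theorem ind_mono {F G : Finset (Fin n)} (h : F ⊆ G) : ind F ≤ ind G := by
  intro j
  unfold ind
  split_ifs with h1 h2
  · exact le_rfl
  · exact absurd (h h1) h2
  · exact zero_le_one
  · exact le_rfl

/-- the strand of a set of vectors -/
def Del (D : Set (Z n)) (c : Z n) (F : Finset (Fin n)) : Prop := ∃ d ∈ D, c + ind F ≤ d

theorem Del.mono {D : Set (Z n)} {c : Z n} {F G : Finset (Fin n)} (h : Del D c G)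
    (hFG : F ⊆ G) : Del D c F := by
  obtain ⟨d, hd, h⟩ := h
  exact ⟨d, hd, (add_le_add_right (ind_mono hFG) c).trans h⟩

theorem Del.mono_set {D D' : Set (Z n)} {c : Z n} {F : Finset (Fin n)} (h : Del D c F)
    (hD : D ⊆ D') : Del D' c F := by
  obtain ⟨d, hd, h⟩ := h
  exact ⟨d, hD hd, h⟩

variable {K : Type*} [Field K]

/-- chains -/
def Ch (D : Set (Z n)) (c : Z n) (i : ℕ) (z : Finset (Fin n) → K) : Prop :=
  ∀ F, z F ≠ 0 → F.card = i ∧ Del D c F

/-- **relative acyclicity** -/
theorem relAcyclic {β : Type*} [LinearOrder β] (f : Z n → β) (hf : Function.Injective f)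
    (B : Set (Z n)) (C : Finset (Z n))
    (hLQ : ∀ u ∈ C, ∀ v, (v ∈ B ∨ (v ∈ C ∧ f v < f u)) → ∃ q, v q < u q ∧
      ∃ w, (w ∈ B ∨ (w ∈ C ∧ f w < f u)) ∧ u - ee q ≤ w) :
    ∀ (i : ℕ) (c : Z n) (z : Finset (Fin n) → K),
    Ch (B ∪ C) c i z → (∀ G, bd z G ≠ 0 → Del B c G) →
    (¬ ∃ u ∈ C, ∃ F : Finset (Fin n), F.card = i ∧ c + ind F = u ∧
      ∀ q ∈ F, ∃ w, (w ∈ B ∨ (w ∈ C ∧ f w < f u)) ∧ u - ee q ≤ w) →
    ∃ w : Finset (Fin n) → K, Ch (B ∪ C) c (i + 1) w ∧ Ch B c i (z - bd w) := by
  classical
  revert hLQ
  refine Finset.induction_on_max_value f C ?_ ?_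
  · intro _ i c z hz _ _
    refine ⟨0, fun F hF => absurd rfl hF, ?_⟩
    have h0 : bd (0 : Finset (Fin n) → K) = 0 := by
      funext G
      simp [bd]
    rw [h0, sub_zero]
    intro F hF
    have := hz F hF
    rwa [coe_empty, Set.union_empty] at this
  · intro u C' huC' hmax ih hLQ i c z hz hbz hno
    have hlt : ∀ v ∈ C', f v < f u := by
      intro v hv
      refine lt_of_le_of_ne (hmax v hv) fun h => huC' ?_
      rwa [← hf h]
    have key : ∀ u₁ ∈ C', ∀ w, (w ∈ B ∨ (w ∈ insert u C' ∧ f w < f u₁)) →
        (w ∈ B ∨ (w ∈ C' ∧ f w < f u₁)) := by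
      rintro u₁ hu₁ w (hw | ⟨hw, hlt'⟩)
      · exact Or.inl hw
      · rcases mem_insert.mp hw with rfl | hw
        · exact absurd (hlt'.trans (hlt u₁ hu₁)) (lt_irrefl _)
        · exact Or.inr ⟨hw, hlt'⟩
    have hLQ' : ∀ u₁ ∈ C', ∀ v, (v ∈ B ∨ (v ∈ C' ∧ f v < f u₁)) → ∃ q, v q < u₁ q ∧
        ∃ w, (w ∈ B ∨ (w ∈ C' ∧ f w < f u₁)) ∧ u₁ - ee q ≤ w := by
      intro u₁ hu₁ v hv
      obtain ⟨q, hq, w, hw, hle⟩ := hLQ u₁ (mem_insert_of_mem hu₁) v
        (hv.imp id fun h => ⟨mem_insert_of_mem h.1, h.2⟩)
      exact ⟨q, hq, w, key u₁ hu₁ w hw, hle⟩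
    have hno' : ¬ ∃ u₁ ∈ C', ∃ F : Finset (Fin n), F.card = i ∧ c + ind F = u₁ ∧
        ∀ q ∈ F, ∃ w, (w ∈ B ∨ (w ∈ C' ∧ f w < f u₁)) ∧ u₁ - ee q ≤ w := by
      rintro ⟨u₁, hu₁, F, hF, hc, hst⟩
      refine hno ⟨u₁, mem_insert_of_mem hu₁, F, hF, hc, fun q hq => ?_⟩
      obtain ⟨w, hw, h1⟩ := hst q hq
      exact ⟨w, hw.imp id fun h => ⟨mem_insert_of_mem h.1, h.2⟩, h1⟩
    have ih' := ih hLQ' i c
    have hsub : B ∪ (C' : Set (Z n)) ⊆ B ∪ ((insert u C' : Finset (Z n)) : Set (Z n)) := by
      intro v hv
      rcases hv with hv | hv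
      · exact Or.inl hv
      · exact Or.inr (mem_coe.mpr (mem_insert_of_mem (mem_coe.mp hv)))
    let st : Fin n → Prop := fun q => ∃ w, (w ∈ B ∨ (w ∈ C')) ∧ u - ee q ≤ w
    have hstC : ∀ q, st q → ∃ w, (w ∈ B ∨ (w ∈ insert u C' ∧ f w < f u)) ∧ u - ee q ≤ w := by
      rintro q ⟨w, hw, h⟩
      exact ⟨w, hw.imp id fun h => ⟨mem_insert_of_mem h, hlt w h⟩, h⟩
    have hCst : ∀ q, (∃ w, (w ∈ B ∨ (w ∈ insert u C' ∧ f w < f u)) ∧ u - ee q ≤ w) → st q := by
      rintro q ⟨w, hw, h⟩
      refine ⟨w, hw.imp id fun h => ?_, h⟩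
      rcases mem_insert.mp h.1 with rfl | h1
      · exact absurd h.2 (lt_irrefl _)
      · exact h1
    -- reduction to chains without the new part
    have hred : ∀ z : Finset (Fin n) → K, Ch (B ∪ C') c i z → (∀ G, bd z G ≠ 0 → Del B c G) →
        ∃ w : Finset (Fin n) → K, Ch (B ∪ (insert u C' : Finset (Z n))) c (i + 1) w ∧
          Ch B c i (z - bd w) := by
      intro z hz hbz
      obtain ⟨w, hw, hbw⟩ := ih' z hz hbz hno'
      exact ⟨w, fun F hF => ⟨(hw F hF).1, (hw F hF).2.mono_set hsub⟩, hbw⟩
    -- the relative part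
    have hR : ∀ F, Del (B ∪ (insert u C' : Finset (Z n))) c F → ¬ Del (B ∪ C') c F →
        c + ind F ≤ u := by
      rintro F ⟨v, hv, h1⟩ h2
      rcases hv with hv | hv
      · exact absurd ⟨v, Or.inl hv, h1⟩ h2
      · rcases mem_insert.mp (mem_coe.mp hv) with rfl | hv
        · exact h1
        · exact absurd ⟨v, Or.inr (mem_coe.mpr hv), h1⟩ h2
    have hiff : ∀ F, c + ind F ≤ u →
        (Del (B ∪ C') c F ↔ ∃ q, st q ∧ c q + ind F q < u q) := by
      intro F hF
      constructor
      · rintro ⟨v, hv, hva⟩
        have hv' : v ∈ B ∨ (v ∈ insert u C' ∧ f v < f u) := by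
          rcases hv with hv | hv
          · exact Or.inl hv
          · exact Or.inr ⟨mem_insert_of_mem (mem_coe.mp hv), hlt v (mem_coe.mp hv)⟩
        obtain ⟨q, hq, hst⟩ := hLQ u (mem_insert_self _ _) v hv'
        refine ⟨q, hCst q hst, ?_⟩
        have : c q + ind F q ≤ v q := hva q
        omega
      · rintro ⟨q, ⟨w, hw, hwle⟩, hq⟩
        refine ⟨w, ?_, ?_⟩
        · rcases hw with hw | hw
          · exact Or.inl hw
          · exact Or.inr (mem_coe.mpr hw)
        · intro j
          have h1 : u j - ee q j ≤ w j := hwle j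
          have h2 : c j + ind F j ≤ u j := hF j
          show c j + ind F j ≤ w j
          by_cases h3 : j = q
          · subst h3
            rw [ee_self] at h1
            omega
          · rw [ee_ne h3] at h1
            omega
    by_cases hB : ∃ p, ¬ st p ∧ c p < u p
    · obtain ⟨p, hp1, hp2⟩ := hB
      -- toggling `p`
      let R : Finset (Fin n) → Prop := fun F =>
        Del (B ∪ (insert u C' : Finset (Z n))) c F ∧ ¬ Del (B ∪ C') c F
      have hRins : ∀ F, R F → R (insert p F) := by
        rintro F ⟨h1, h2⟩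
        have h3 := hR F h1 h2
        by_cases hpF : p ∈ F
        · rw [insert_eq_of_mem hpF]; exact ⟨h1, h2⟩
        · have h4 : c + ind (insert p F) ≤ u := by
            rw [ind_insert F p hpF]
            intro j
            have h5 : c j + ind F j ≤ u j := h3 j
            show c j + (ind F j + ee p j) ≤ u j
            by_cases h6 : j = p
            · subst h6
              have h7 : ind F j = 0 := if_neg hpF
              rw [h7, ee_self]
              omega
            · rw [ee_ne h6]
              omega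
          refine ⟨⟨u, Or.inr (mem_coe.mpr (mem_insert_self _ _)), h4⟩, ?_⟩
          rw [hiff _ h4]
          rintro ⟨q, hq1, hq2⟩
          apply h2
          rw [hiff _ h3]
          refine ⟨q, hq1, lt_of_le_of_lt ?_ hq2⟩
          exact add_le_add_right (ind_mono (subset_insert _ _) q) _
      have hRer : ∀ F, R F → R (F.erase p) := by
        rintro F ⟨h1, h2⟩
        have h3 := hR F h1 h2
        have h4 : c + ind (F.erase p) ≤ u :=
          (add_le_add_right (ind_mono (erase_subset _ _)) c).trans h3
        refine ⟨⟨u, Or.inr (mem_coe.mpr (mem_insert_self _ _)), h4⟩, ?_⟩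
        rw [hiff _ h4]
        rintro ⟨q, hq1, hq2⟩
        apply h2
        rw [hiff _ h3]
        refine ⟨q, hq1, ?_⟩
        have hqp : q ≠ p := by rintro rfl; exact hp1 hq1
        have h5 : ind F q = ind (F.erase p) q := by
          simp [ind, hqp]
        rw [h5]
        exact hq2
      let zR : Finset (Fin n) → K := fun F => if R F then z F else 0
      have hzR : ∀ G, R G → bd zR G = 0 := by
        intro G hG
        have h1 : bd zR G = bd z G := by
          refine sum_congr rfl fun j _ => ?_
          congr 1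
          show (if R (insert j G) then z (insert j G) else 0) = z (insert j G)
          by_cases h2 : z (insert j G) = 0
          · rw [h2, ite_self]
          · rw [if_pos]
            exact ⟨(hz _ h2).2, fun h3 => hG.2 (h3.mono (subset_insert _ _))⟩
        rw [h1]
        by_contra hne
        exact hG.2 ((hbz G hne).mono_set Set.subset_union_left)
      let w1 : Finset (Fin n) → K := cone p zR
      have hw1 : Ch (B ∪ (insert u C' : Finset (Z n))) c (i + 1) w1 := by
        intro F hF
        have hpF : p ∈ F := by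
          by_contra hcon
          exact hF (if_neg hcon)
        have h1 : zR (F.erase p) ≠ 0 := by
          intro h0
          apply hF
          show (if p ∈ F then eps K p (F.erase p) * zR (F.erase p) else 0) = 0
          rw [h0, mul_zero, ite_self]
        have h2 : R (F.erase p) := by
          by_contra hcon
          exact h1 (if_neg hcon)
        have h3 : z (F.erase p) ≠ 0 := by
          intro h0
          apply h1
          show (if R (F.erase p) then z (F.erase p) else 0) = 0
          rw [h0, ite_self]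
        constructor
        · have := (hz _ h3).1
          rw [card_erase_of_mem hpF] at this
          have := card_pos.mpr ⟨p, hpF⟩
          omega
        · have h4 := (hRins _ h2).1
          rwa [insert_erase hpF] at h4
      have hz' : Ch (B ∪ C') c i (z - bd w1) := by
        intro F hF
        have hor : z F ≠ 0 ∨ bd w1 F ≠ 0 := by
          by_contra hcon
          push Not at hcon
          apply hF
          rw [Pi.sub_apply, hcon.1, hcon.2, sub_zero]
        have h1 : F.card = i ∧ Del (B ∪ (insert u C' : Finset (Z n))) c F := by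
          rcases hor with h | h
          · exact hz F h
          · obtain ⟨j, hj, hne⟩ := bd_ne h
            have h2 := hw1 _ hne
            rw [card_insert_of_notMem hj] at h2
            exact ⟨by omega, h2.2.mono (subset_insert _ _)⟩
        refine ⟨h1.1, ?_⟩
        by_contra hcon
        have hRF : R F := ⟨h1.2, hcon⟩
        apply hF
        have h2 : bd w1 = zR - cone p (bd zR) := bd_cone p zR
        rw [Pi.sub_apply, h2, Pi.sub_apply]
        have h3 : cone p (bd zR) F = 0 := by
          show (if p ∈ F then eps K p (F.erase p) * bd zR (F.erase p) else 0) = 0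
          rw [hzR _ (hRer F hRF), mul_zero, ite_self]
        have h4 : zR F = z F := if_pos hRF
        rw [h3, h4]
        ring
      obtain ⟨w, hw, hbw⟩ := hred (z - bd w1) hz' (by
        rw [bd_sub, bd_bd, sub_zero]
        exact hbz)
      refine ⟨w + w1, ?_, ?_⟩
      · intro F hF
        by_cases h : w F = 0
        · apply hw1
          intro h2
          apply hF
          rw [Pi.add_apply, h, h2, add_zero]
        · exact hw F h
      · have h5 : z - bd (w + w1) = z - bd w1 - bd w := by
          rw [bd_add]; abel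
        rw [h5]
        exact hbw
    · -- no free direction
      push Not at hB
      apply hred z _ hbz
      intro F hF
      refine ⟨(hz F hF).1, ?_⟩
      by_contra hcon
      have h1 := hR F (hz F hF).2 hcon
      apply hno
      refine ⟨u, mem_insert_self _ _, F, (hz F hF).1, ?_, ?_⟩
      · funext q
        have h2 : c q + ind F q ≤ u q := h1 q
        show c q + ind F q = u q
        by_cases hq : st q
        · rw [hiff F h1] at hcon
          push Not at hcon
          have h3 := hcon q hq
          omega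
        · have h3 := hB q hq
          have h4 := ind_nonneg F q
          omega
      · intro q hq
        apply hstC
        by_contra hst
        have h3 := hB q hst
        have h2 : c q + ind F q ≤ u q := h1 q
        have h4 : ind F q = 1 := if_pos hq
        omega

end Pool.Agent.KS6_47.CEg
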