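import Pool.Agent.KS6_47.CEg.Tor

/-! Sharpness of the generating degree: the star graphs. -/

set_option autoImplicit false
open Finset

namespace Pool.Agent.KS6_47.CEg

open Pool.Agent.KS6_47.CEgPoly (bd cone eps bd_add bd_sub bd_bd bd_cone bd_ne eps_sq)
open Pool.Agent.KS6_47.CEg.Tor

/-- The star with centre `0` and `m` leaves. -/
def starGraph (m : ℕ) : SimpleGraph (Fin (m + 1)) where
  Adj a b := (a = 0 ∧ b ≠ 0) ∨ (a ≠ 0 ∧ b = 0)
  symm := ⟨by
    rintro a b (h | h)
    · exact Or.inr ⟨h.2, h.1⟩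
    · exact Or.inl ⟨h.2, h.1⟩⟩
  loopless := ⟨by
    rintro a (h | h)
    · exact h.2 h.1
    · exact h.1 h.2⟩

theorem star_connected (m : ℕ) : (starGraph m).Connected := by
  rw [SimpleGraph.connected_iff_exists_forall_reachable]
  refine ⟨0, fun w => ?_⟩
  by_cases h : w = 0
  · rw [h]
  · exact SimpleGraph.Adj.reachable (Or.inl ⟨rfl, h⟩)

theorem star_zero {m s : ℕ} {x : Z (m + 1)} (h : PM (starGraph m) s x) : x 0 = s := by
  induction h with
  | zero => rfl
  | @add s x a b _ hab ih =>
    show x 0 + ee a 0 + ee b 0 = ((s + 1 : ℕ) : ℤ)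
    rw [ih]
    push_cast
    rcases hab with ⟨h1, h2⟩ | ⟨h1, h2⟩
    · subst h1
      rw [ee_self, ee_ne (Ne.symm h2)]
      ring
    · subst h2
      rw [ee_self, ee_ne (Ne.symm h1)]
      ring

theorem star_mk {m : ℕ} (F : Finset (Fin (m + 1))) :
    0 ∉ F → PM (starGraph m) F.card (((F.card : ℕ) : ℤ) • ee 0 + ind F) := by
  induction F using Finset.induction_on with
  | empty =>
    intro _
    refine PM.of_eq PM.zero ?_
    funext j
    simp [ind]
  | insert p F hp ih =>
    intro h0
    rw [mem_insert, not_or] at h0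
    rw [card_insert_of_notMem hp]
    refine (ih h0.2).edge (a := 0) (b := p) (Or.inl ⟨rfl, Ne.symm h0.1⟩) ?_
    rw [ind_insert F p hp]
    push_cast
    rw [add_smul, one_smul]
    abel

variable {K : Type*} [Field K]

theorem eps_ne {n : ℕ} (j : Fin n) (F : Finset (Fin n)) : eps K j F ≠ 0 := by
  intro h
  have h1 := eps_sq (K := K) j F
  rw [h, zero_mul] at h1
  exact zero_ne_one h1

theorem star_Zc {m s i : ℕ} (hs : s < i) {c : Z (m + 1)} (hc : 0 ≤ c)
    (hsum : ∑ j, c j + i = 2 * (s : ℤ)) {z : Finset (Fin (m + 1)) → K}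
    (hz : z ∈ Zc K (starGraph m) s i c) : z = 0 := by
  obtain ⟨hb, hS⟩ := mem_Zc.mp hz
  have h0 : ∀ F, z F ≠ 0 → 0 ∈ F := by
    intro F hF
    by_contra h
    obtain ⟨_, hP⟩ := hS F hF
    have h1 : c 0 + ind F 0 = s := star_zero hP
    have h2 : ind F (0 : Fin (m + 1)) = 0 := if_neg h
    have h3 : c 0 ≤ ∑ j, c j := single_le_sum (fun j _ => hc j) (mem_univ _)
    omega
  funext F
  rw [Pi.zero_apply]
  by_contra hF
  have hF0 := h0 F hF
  have h4 : bd z (F.erase 0) = 0 := by rw [hb]; rfl
  have h5 : bd z (F.erase 0) = eps K 0 (F.erase 0) * z (insert 0 (F.erase 0)) := by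
    unfold Pool.Agent.KS6_47.CEgPoly.bd
    apply sum_eq_single_of_mem
    · rw [mem_sdiff]
      exact ⟨mem_univ _, notMem_erase _ _⟩
    · intro j _ hj
      have h6 : z (insert j (F.erase 0)) = 0 := by
        by_contra h7
        have h8 := h0 _ h7
        rw [mem_insert] at h8
        rcases h8 with h8 | h8
        · exact hj h8.symm
        · exact notMem_erase _ _ h8
      rw [h6, mul_zero]
  rw [h5, insert_erase hF0] at h4
  rcases mul_eq_zero.mp h4 with h9 | h9
  · exact eps_ne _ _ h9
  · exact hF h9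

theorem star_bot {m s i : ℕ} (hs : s < i) : HS i (compEdge K (starGraph m) ^ s) = ⊥ := by
  unfold HS
  rw [Ideal.span_eq_bot]
  rintro _ ⟨a, ha, rfl⟩
  exfalso
  obtain ⟨hc, hsum, z, hz, hz0⟩ := (tor_iff (star_connected m) s i a).mp ha
  exact hz0 (star_Zc hs hc hsum hz)

theorem star_ne_bot {m i : ℕ} (hi : i < m) : HS i (compEdge K (starGraph m) ^ i) ≠ ⊥ := by
  classical
  obtain ⟨F', hF', hcard⟩ : ∃ F' : Finset (Fin (m + 1)), F' ⊆ univ.erase 0 ∧ F'.card = i + 1 := by
    apply exists_subset_card_eq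
    rw [card_erase_of_mem (mem_univ _), card_univ, Fintype.card_fin]
    omega
  have h0F' : (0 : Fin (m + 1)) ∉ F' := fun h => (mem_erase.mp (hF' h)).1 rfl
  set z : Finset (Fin (m + 1)) → K := bd (Pi.single F' (1 : K)) with hz
  set a : Fin (m + 1) →₀ ℕ := Finsupp.equivFunOnFinite.symm fun j => if j = 0 then 0 else i with ha
  have hcc : cc i a = (i : ℤ) • ee 0 := by
    funext j
    show (i : ℤ) - ((if j = 0 then 0 else i : ℕ) : ℤ) = (i : ℤ) * ee 0 j
    by_cases hj : j = 0
    · subst hj
      rw [ee_self, if_pos rfl]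
      simp
    · rw [ee_ne hj, if_neg hj]
      simp
  have hT : TorNonzero (compEdge K (starGraph m) ^ i) i a := by
    refine (tor_iff (star_connected m) i i a).mpr ⟨?_, ?_, z, ⟨?_, ?_⟩, ?_⟩
    · rw [hcc]
      intro j
      show (0 : ℤ) ≤ (i : ℤ) * ee 0 j
      exact mul_nonneg (by positivity) (ee_nonneg _ _)
    · rw [hcc]
      have : ∑ j, ((i : ℤ) • (ee 0 : Z (m + 1))) j = (i : ℤ) := by
        simp only [Pi.smul_apply, smul_eq_mul]
        rw [← mul_sum, sum_ee, mul_one]
      rw [this]
      ring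
    · rw [hz, bd_bd]
    · intro F hF
      obtain ⟨j, hj, hne⟩ := bd_ne hF
      have h1 : insert j F = F' := by
        by_contra h
        rw [Pi.single_eq_of_ne h] at hne
        exact hne rfl
      have h2 : F.card = i := by
        rw [← h1, card_insert_of_notMem hj] at hcard
        omega
      refine ⟨h2, ?_⟩
      have h3 : (0 : Fin (m + 1)) ∉ F := fun h => h0F' (by rw [← h1]; exact mem_insert_of_mem h)
      have h4 := star_mk F h3
      rw [h2] at h4
      rw [hcc]
      exact h4
    · intro h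
      have hne : F'.Nonempty := by
        rw [← card_pos, hcard]
        omega
      obtain ⟨p, hp⟩ := hne
      have h1 : z (F'.erase p) = eps K p (F'.erase p) * 1 := by
        rw [hz]
        unfold Pool.Agent.KS6_47.CEgPoly.bd
        rw [sum_eq_single_of_mem p]
        · rw [insert_erase hp, Pi.single_eq_same]
        · rw [mem_sdiff]
          exact ⟨mem_univ _, notMem_erase _ _⟩
        · intro j hj hjp
          have h6 : insert j (F'.erase p) ≠ F' := by
            intro h7
            have h8 : p ∈ insert j (F'.erase p) := by rw [h7]; exact hp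
            rw [mem_insert] at h8
            rcases h8 with h8 | h8
            · exact hjp h8.symm
            · exact notMem_erase _ _ h8
          rw [Pi.single_eq_of_ne h6, mul_zero]
      rw [h, mul_one] at h1
      exact eps_ne _ _ h1.symm
  intro hbot
  have h1 : (MvPolynomial.monomial a (1 : K)) ∈ HS i (compEdge K (starGraph m) ^ i) :=
    Ideal.subset_span ⟨a, hT, rfl⟩
  rw [hbot, Ideal.mem_bot, MvPolynomial.monomial_eq_zero] at h1
  exact one_ne_zero h1

theorem large_bot {n : ℕ} {G : SimpleGraph (Fin n)} (hG : G.Connected) (i s : ℕ)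
    (h : 2 * s < i ∨ n ≤ i) : HS i (compEdge K G ^ s) = ⊥ := by
  unfold HS
  rw [Ideal.span_eq_bot]
  rintro _ ⟨a, ha, rfl⟩
  exfalso
  obtain ⟨hc, hsum, z, hz, hz0⟩ := (tor_iff hG s i a).mp ha
  obtain ⟨hb, hS⟩ := mem_Zc.mp hz
  rcases h with h | h
  · have h1 : 0 ≤ ∑ j, cc s a j := sum_nonneg fun j _ => hc j
    omega
  · apply hz0
    funext F
    rw [Pi.zero_apply]
    by_contra hF
    have h1 := (hS F hF).1
    have h2 : F = univ := by
      apply eq_univ_of_card
      rw [Fintype.card_fin]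
      have := card_le_univ F
      rw [Fintype.card_fin] at this
      omega
    subst h2
    obtain ⟨l⟩ := hG.nonempty
    have h4 : bd z (univ.erase l) = 0 := by rw [hb]; rfl
    have h5 : bd z (univ.erase l) = eps K l (univ.erase l) * z (insert l (univ.erase l)) := by
      unfold Pool.Agent.KS6_47.CEgPoly.bd
      apply sum_eq_single_of_mem
      · rw [mem_sdiff]
        exact ⟨mem_univ _, notMem_erase _ _⟩
      · intro j hj hjl
        rw [mem_sdiff, mem_erase, not_and] at hj
        exact absurd (mem_univ j) (hj.2 hjl)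
    rw [h5, insert_erase (mem_univ l)] at h4
    rcases mul_eq_zero.mp h4 with h9 | h9
    · exact eps_ne _ _ h9
    · exact hF h9

theorem linear {n : ℕ} {G : SimpleGraph (Fin n)} (hG : G.Connected) (i s : ℕ)
    (a : Fin n →₀ ℕ) (h : TorNonzero (compEdge K G ^ s) i a) :
    ∑ j, a j + 2 * s = n * s + i ∧ ∀ j, a j ≤ s := by
  obtain ⟨hc, hsum, -⟩ := (tor_iff hG s i a).mp h
  constructor
  · have h1 : ∑ j, cc s a j = n * (s : ℤ) - ∑ j, (a j : ℤ) := by
      unfold cc
      rw [sum_sub_distrib]
      simp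
    rw [h1] at hsum
    have h2 : (((∑ j, a j + 2 * s : ℕ)) : ℤ) = ((n * s + i : ℕ) : ℤ) := by
      push_cast
      linarith
    exact_mod_cast h2
  · intro j
    have h1 : (0 : ℤ) ≤ (s : ℤ) - a j := hc j
    omega

end Pool.Agent.KS6_47.CEg
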